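import Mathlib
import Pool.Agent.X115.HS.Stm

/-! Part ZA of project HS (MP_e4c1d4_an): a nonnegative continuous function whose heat means decay
fast vanishes. -/

namespace Pool.Agent.X327.HS.ZA

open MeasureTheory Set Filter Topology Real Pool.Agent.X115.HS

theorem gk_lower {n : ℕ} (s : ℝ) (hs : 1 ≤ s) (x : X n) (hx : ‖x‖ ≤ 1) :
    ((4 * π * s) ^ n)⁻¹ * Real.exp (-1) ≤ gk s x := by
  unfold gk
  have hpi : (3 : ℝ) < π := Real.pi_gt_three
  have h1 : 1 ≤ 4 * π * s := by nlinarith
  have h2 : ((4 * π * s) ^ n)⁻¹ ≤ (4 * π * s) ^ (-((n : ℝ) / 2)) := by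
    rw [Real.rpow_neg (by linarith)]
    apply inv_anti₀ (by positivity)
    rw [← Real.rpow_natCast]
    apply Real.rpow_le_rpow_of_exponent_le h1
    have : (0 : ℝ) ≤ n := Nat.cast_nonneg n
    linarith
  have h3 : Real.exp (-1) ≤ Real.exp (-‖x‖ ^ 2 / (4 * s)) := by
    apply Real.exp_le_exp.2
    rw [neg_div, neg_le_neg_iff, div_le_one (by linarith)]
    have : ‖x‖ ^ 2 ≤ 1 := by
      have := norm_nonneg x
      nlinarith
    linarith
  exact mul_le_mul h2 h3 (Real.exp_pos _).le (Real.rpow_nonneg (by linarith) _)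

theorem gk_nonneg {n : ℕ} (s : ℝ) (hs : 0 < s) (x : X n) : 0 ≤ gk s x := by
  unfold gk
  have hpi := Real.pi_pos
  have : 0 ≤ 4 * π * s := by positivity
  exact mul_nonneg (Real.rpow_nonneg this _) (Real.exp_pos _).le

theorem t : Pool.Agent.X115.HS.S_ZA := by
  intro n a x0 hc hpos hint hJ
  by_contra hne
  have ha : 0 < a x0 := lt_of_le_of_ne (hpos x0) (Ne.symm hne)
  obtain ⟨D, hD⟩ := hJ (n + 1) (by omega)
  -- a ball on which `a` is large
  have hev : ∀ᶠ x in 𝓝 x0, a x0 / 2 < a x := hc.continuousAt.eventually (lt_mem_nhds (by linarith))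
  obtain ⟨r, hr, hball⟩ := Metric.eventually_nhds_iff_ball.1 hev
  set ρ : ℝ := min r 1 with hρ
  have hρ0 : 0 < ρ := lt_min hr one_pos
  have hvol : 0 < volume.real (Metric.ball x0 ρ) := by
    rw [measureReal_def]
    exact ENNReal.toReal_pos (Metric.measure_ball_pos volume x0 hρ0).ne' measure_ball_lt_top.ne
  have hlow : ∀ s : ℝ, 1 ≤ s → a x0 / 2 * (((4 * π * s) ^ n)⁻¹ * Real.exp (-1)) * volume.real (Metric.ball x0 ρ) ≤
      ∫ x, a x * gk s (x - x0) := by
    intro s hs
    have hs0 : 0 < s := by linarith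
    have h1 : a x0 / 2 * (((4 * π * s) ^ n)⁻¹ * Real.exp (-1)) * volume.real (Metric.ball x0 ρ) ≤
        ∫ x in Metric.ball x0 ρ, a x * gk s (x - x0) := by
      refine setIntegral_ge_of_const_le_real measurableSet_ball measure_ball_lt_top.ne ?_ (hint s hs0).integrableOn
      intro x hx
      have hx1 : x ∈ Metric.ball x0 r := Metric.ball_subset_ball (min_le_left _ _) hx
      have hx2 : ‖x - x0‖ ≤ 1 := by
        rw [← dist_eq_norm]
        exact (le_of_lt (Metric.mem_ball.1 hx)).trans (min_le_right _ _)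
      have hpi := Real.pi_pos
      refine mul_le_mul (hball x hx1).le (gk_lower s hs _ hx2) (by positivity) (hpos x)
    refine h1.trans (setIntegral_le_integral (hint s hs0) ?_)
    exact Eventually.of_forall fun x => mul_nonneg (hpos x) (gk_nonneg s hs0 _)
  set c : ℝ := a x0 / 2 * (((4 * π) ^ n)⁻¹ * Real.exp (-1)) * volume.real (Metric.ball x0 ρ) with hcdef
  have hc0 : 0 < c := by
    have hpi := Real.pi_pos
    positivity
  have hcs : ∀ s : ℝ, 1 ≤ s → c * s ≤ D := by
    intro s hs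
    have hs0 : 0 < s := by linarith
    refine le_trans ?_ (hD s hs)
    have h1 := mul_le_mul_of_nonneg_left (hlow s hs) (pow_pos hs0 (n + 1)).le
    refine le_trans (le_of_eq ?_) h1
    rw [hcdef, mul_pow (4 * π) s n]
    have hpi := Real.pi_pos
    field_simp
    ring
  have h1 := hcs (max 1 (D / c + 1)) (le_max_left _ _)
  have h2 : c * (D / c + 1) ≤ c * max 1 (D / c + 1) := mul_le_mul_of_nonneg_left (le_max_right _ _) hc0.le
  have h3 : c * (D / c + 1) = D + c := by field_simp
  linarith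

end Pool.Agent.X327.HS.ZA
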