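import Mathlib
import Pool.Agent.X115.HS.Stm

/-! Part DEC of project HS (MP_e4c1d4_an): a differential inequality gives decay. -/

namespace Pool.Agent.X327.HS.DEC

open Set Filter Topology Real

theorem inv_pow_deriv (k : ℕ) (s : ℝ) (hs : 0 < s) :
    HasDerivAt (fun s : ℝ => (s ^ (k + 1))⁻¹) (-((k : ℝ) + 1) * (s ^ (k + 2))⁻¹) s := by
  have h := (hasDerivAt_pow (k + 1) s).inv (pow_ne_zero (k + 1) hs.ne')
  refine h.congr_deriv ?_
  have h0 : s ≠ 0 := hs.ne'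
  rw [Nat.add_sub_cancel]
  field_simp
  push_cast
  ring

theorem step (A : ℝ → ℝ) (C D : ℝ) (J j : ℕ) (hC : 0 ≤ C) (hD : 0 ≤ D) (hJ : 1 ≤ J)
    (hd : ∀ s : ℝ, 0 < s → DifferentiableAt ℝ A s) (hlim : Tendsto A atTop (𝓝 0))
    (hder : ∀ s : ℝ, 1 ≤ s → -(C * (A (9 / 2 * s) / s ^ 2 + 1 / s ^ (J + 1))) ≤ deriv A s)
    (hj : ∀ s : ℝ, 1 ≤ s → A s ≤ D * (s ^ j)⁻¹) (s : ℝ) (hs : 1 ≤ s) :
    A s ≤ C * D * (s ^ (j + 1))⁻¹ + C * (s ^ J)⁻¹ := by
  obtain ⟨m, rfl⟩ : ∃ m, J = m + 1 := ⟨J - 1, by omega⟩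
  set F : ℝ → ℝ := fun s => A s - (C * D * (s ^ (j + 1))⁻¹ + C * (s ^ (m + 1))⁻¹) with hF
  have hFd : ∀ s : ℝ, 0 < s → HasDerivAt F (deriv A s - (C * D * (-((j : ℝ) + 1) * (s ^ (j + 2))⁻¹) +
      C * (-((m : ℝ) + 1) * (s ^ (m + 2))⁻¹))) s := by
    intro s hs
    exact (hd s hs).hasDerivAt.sub
      (((inv_pow_deriv j s hs).const_mul _).add ((inv_pow_deriv m s hs).const_mul _))
  have hpos : ∀ s : ℝ, 1 ≤ s → 0 ≤ deriv A s - (C * D * (-((j : ℝ) + 1) * (s ^ (j + 2))⁻¹) +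
      C * (-((m : ℝ) + 1) * (s ^ (m + 2))⁻¹)) := by
    intro s hs
    have hs0 : 0 < s := by linarith
    have h1 := hder s hs
    have h2 : A (9 / 2 * s) / s ^ 2 ≤ D * (s ^ (j + 2))⁻¹ := by
      have h3 := hj (9 / 2 * s) (by linarith)
      have h4 : ((9 / 2 * s) ^ j)⁻¹ ≤ (s ^ j)⁻¹ := by
        apply inv_anti₀ (by positivity)
        apply pow_le_pow_left₀ hs0.le
        linarith
      have h5 : A (9 / 2 * s) ≤ D * (s ^ j)⁻¹ := h3.trans (mul_le_mul_of_nonneg_left h4 hD)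
      calc A (9 / 2 * s) / s ^ 2 ≤ D * (s ^ j)⁻¹ / s ^ 2 := by
            apply div_le_div_of_nonneg_right h5 (by positivity)
        _ = D * (s ^ (j + 2))⁻¹ := by
            rw [pow_add]
            field_simp
    have h6 : 1 / s ^ (m + 1 + 1) = (s ^ (m + 2))⁻¹ := by rw [one_div]
    rw [h6] at h1
    have h7 : C * (A (9 / 2 * s) / s ^ 2) ≤ C * (D * (s ^ (j + 2))⁻¹) := mul_le_mul_of_nonneg_left h2 hC
    have h8 : 0 ≤ C * D * ((j : ℝ) * (s ^ (j + 2))⁻¹) := by positivity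
    have h9 : 0 ≤ C * ((m : ℝ) * (s ^ (m + 2))⁻¹) := by positivity
    nlinarith
  have hmono : MonotoneOn F (Ici 1) := by
    apply monotoneOn_of_deriv_nonneg (convex_Ici 1)
    · intro x hx
      exact (hFd x (lt_of_lt_of_le one_pos hx)).continuousAt.continuousWithinAt
    · intro x hx
      rw [interior_Ici] at hx
      exact (hFd x (lt_trans one_pos hx)).differentiableAt.differentiableWithinAt
    · intro x hx
      rw [interior_Ici] at hx
      rw [(hFd x (lt_trans one_pos hx)).deriv]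
      exact hpos x (le_of_lt hx)
  have hinv : ∀ k : ℕ, Tendsto (fun s : ℝ => (s ^ (k + 1))⁻¹) atTop (𝓝 0) := fun k =>
    (tendsto_pow_atTop (Nat.succ_ne_zero k)).inv_tendsto_atTop
  have hFlim : Tendsto F atTop (𝓝 0) := by
    have := hlim.sub (((hinv j).const_mul (C * D)).add ((hinv m).const_mul C))
    simpa using this
  have h0 : F s ≤ 0 := by
    refine ge_of_tendsto hFlim ?_
    filter_upwards [eventually_ge_atTop s] with t ht
    exact hmono hs (hs.trans ht) ht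
  have : A s - (C * D * (s ^ (j + 1))⁻¹ + C * (s ^ (m + 1))⁻¹) ≤ 0 := h0
  linarith

theorem t : Pool.Agent.X115.HS.S_DEC := by
  intro A C B J hJ hd hpos hB hlim hder
  have hder' : ∀ s : ℝ, 1 ≤ s → -(|C| * (A (9 / 2 * s) / s ^ 2 + 1 / s ^ (J + 1))) ≤ deriv A s := by
    intro s hs
    refine le_trans ?_ (hder s hs)
    have hs0 : 0 < s := by linarith
    have h1 : 0 ≤ A (9 / 2 * s) / s ^ 2 + 1 / s ^ (J + 1) := by
      have := hpos (9 / 2 * s) (by linarith)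
      positivity
    have h2 := mul_le_mul_of_nonneg_right (le_abs_self C) h1
    linarith
  have key : ∀ j : ℕ, j ≤ J → ∃ D : ℝ, 0 ≤ D ∧ ∀ s : ℝ, 1 ≤ s → A s ≤ D * (s ^ j)⁻¹ := by
    intro j
    induction j with
    | zero =>
      intro _
      refine ⟨|B|, abs_nonneg _, fun s hs => ?_⟩
      simpa using (hB s hs).trans (le_abs_self B)
    | succ j ih =>
      intro hj
      obtain ⟨D, hD, h⟩ := ih (by omega)
      refine ⟨|C| * D + |C|, by positivity, fun s hs => ?_⟩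
      have h1 := step A |C| D J j (abs_nonneg _) hD hJ hd hlim hder' h s hs
      have hs0 : 0 < s := by linarith
      have h2 : (s ^ J)⁻¹ ≤ (s ^ (j + 1))⁻¹ := by
        apply inv_anti₀ (by positivity)
        exact pow_le_pow_right₀ hs hj
      have h3 := mul_le_mul_of_nonneg_left h2 (abs_nonneg C)
      linarith
  obtain ⟨D, _, h⟩ := key J le_rfl
  refine ⟨D, fun s hs => ?_⟩
  have hs0 : 0 < s := by linarith
  have h1 := mul_le_mul_of_nonneg_left (h s hs) (pow_pos hs0 J).le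
  have h2 : s ^ J * (D * (s ^ J)⁻¹) = D := by
    field_simp
  rwa [h2] at h1

end Pool.Agent.X327.HS.DEC
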